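import Pool.Agent.H5.DPG.Stmts

set_option autoImplicit false

namespace Pool.DPG

open Filter TMLib Pool.PG

private theorem tjc_len (n : ℕ) (p : ℕ → Bool) :
    ((List.range n).filter p).length = ((Finset.range n).filter fun v => p v = true).card := by
  rw [← List.toFinset_card_of_nodup (List.nodup_range.filter _)]
  congr 1
  ext v
  simp

private theorem tjc_mem (hFSB : FSBStmt) (g : Game) (X : List Bool) (j : Bool) (s v : ℕ) :
    v ∈ fs g (Tj g X j s) ↔ v < g.length ∧ X.getD v false = true ∧
      ((List.range g.length).filter fun u =>
        X.getD u false && (own g u == j) && decide (v ∈ suc g u)).length < s ∧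
      (own g v = j ∨ ((List.range g.length).filter fun w =>
        X.getD w false && decide (w ∈ suc g v)).length < s) := by
  unfold Tj
  rw [(hFSB.1 g _).2, Finset.mem_filter, Finset.mem_range]
  simp only [Bool.and_eq_true, Bool.or_eq_true, decide_eq_true_eq, beq_iff_eq]
  tauto

/-- **TJC**. -/
theorem tjc_thm (hFSB : FSBStmt) : TJCStmt := by
  intro g K X j hD hX
  have hsub : fs g (Tj g X j (8 * K)) ⊆ fs g X := by
    intro v hv
    rw [tjc_mem hFSB] at hv
    unfold fs
    rw [Finset.mem_filter, Finset.mem_range]
    exact ⟨hv.1, hv.2.1⟩
  have hr : ∀ Y : List Bool, fs g Y ⊆ Finset.range g.length := fun Y => Finset.filter_subset _ _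
  by_cases hbig : 64 * K ≤ (fo g X j).card
  · by_contra hcon
    have hA : 8 * K ≤ (fs g (Tj g X j (8 * K))).card := by omega
    obtain ⟨-, a, ha, hk⟩ := hD (8 * K) (by omega) (fs g (Tj g X j (8 * K))) (fo g X j) (hr _)
      ((Finset.filter_subset _ _).trans (hr X)) hA (by omega)
    rw [tjc_mem hFSB] at ha
    have h1 := ha.2.2.1
    rw [tjc_len] at h1
    have h2 : ((fo g X j).filter fun b => a ∈ suc g b).card ≤
        ((Finset.range g.length).filter fun u => (X.getD u false && (own g u == j) &&
          decide (a ∈ suc g u)) = true).card := by
      apply Finset.card_le_card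
      intro b hb
      unfold fo fs at hb
      simp only [Finset.mem_filter, Finset.mem_range] at hb
      simp only [Finset.mem_filter, Finset.mem_range, Bool.and_eq_true, decide_eq_true_eq,
        beq_iff_eq]
      tauto
    omega
  · set A := (fs g (Tj g X j (8 * K))).filter fun v => own g v ≠ j with hAdef
    have hA : A.card < 8 * K ∨ K = 0 := by
      by_contra hcon
      push Not at hcon
      obtain ⟨⟨a, ha, hk⟩, -⟩ := hD (8 * K) (by omega) A (fs g X)
        ((Finset.filter_subset _ _).trans (hr _)) (hr X) hcon.1 (by omega)
      rw [hAdef, Finset.mem_filter, tjc_mem hFSB] at ha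
      have h1 : ((List.range g.length).filter fun w =>
        X.getD w false && decide (w ∈ suc g a)).length < 8 * K := by
        rcases ha.1.2.2.2 with h | h
        · exact absurd h ha.2
        · exact h
      rw [tjc_len] at h1
      have h2 : ((fs g X).filter fun b => b ∈ suc g a).card ≤
          ((Finset.range g.length).filter fun w => (X.getD w false &&
            decide (w ∈ suc g a)) = true).card := by
        apply Finset.card_le_card
        intro b hb
        unfold fs at hb
        simp only [Finset.mem_filter, Finset.mem_range] at hb
        simp only [Finset.mem_filter, Finset.mem_range, Bool.and_eq_true, decide_eq_true_eq]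
        tauto
      omega
    have hK : K ≠ 0 := by
      rintro rfl
      apply hbig
      simp
    have hA' : A.card < 8 * K := by
      rcases hA with h | h
      · exact h
      · exact absurd h hK
    have hB : ((fs g (Tj g X j (8 * K))).filter fun v => own g v = j).card ≤ (fo g X j).card := by
      apply Finset.card_le_card
      unfold fo
      exact Finset.filter_subset_filter _ hsub
    have hsum := Finset.card_filter_add_card_filter_not (s := fs g (Tj g X j (8 * K)))
      (fun v => own g v = j)
    have hAeq : A.card = ((fs g (Tj g X j (8 * K))).filter fun v => ¬ own g v = j).card := rfl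
    omega

end Pool.DPG
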